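import Mathlib

/-!
# A Banach space with an extended M-basis that contains `ℓ^∞` (MP_810de6_an)

We show that `E = ℓ^∞ ⊕ ℓ^1(Γ)`, where `Γ` is the product of the unit ball of `ℓ^∞` with `ℕ`,
has an extended M-basis, over the real and over the complex field.  The M-basis consists of

* `(δ_n, 0)` for `n : ℕ`, and
* `(y 1_{[m,∞)}, 2^{-m} e_{(y,m)})` for `y` in the unit ball of `ℓ^∞` and `m : ℕ`.

The point is that `(y, 2^{-m} e_{(y,m)})` lies in the span for every `m`, and tends to `(y, 0)`,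
while the coordinate functionals `δ_n^*` of `ℓ^∞` can be corrected by a bounded functional on
`ℓ^1(Γ)` so that they vanish on all vectors of the second kind.
-/

open scoped ENNReal Topology
open Filter

namespace Pool.Agent.Results.MP_810de6_an.LinftyMBasis

/-- `E` has an extended M-basis: a family `x` with dense linear span and a total family `f` of
continuous functionals which is biorthogonal to it. -/
def HasExtendedMBasis (𝕜 : Type) [RCLike 𝕜] (E : Type) [NormedAddCommGroup E]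
    [NormedSpace 𝕜 E] : Prop :=
  ∃ (I : Type) (x : I → E) (f : I → (E →L[𝕜] 𝕜)),
    (∀ i, f i (x i) = 1) ∧ (∀ i j, i ≠ j → f j (x i) = 0) ∧
    closure (Submodule.span 𝕜 (Set.range x) : Set E) = Set.univ ∧
    (∀ v : E, (∀ i, f i v = 0) → v = 0)

/-- The space of bounded sequences with the sup norm. -/
abbrev Linf (𝕜 : Type) [RCLike 𝕜] : Type := lp (fun _ : ℕ => 𝕜) ∞

/-- `E` has a closed subspace which is linearly homeomorphic to `ℓ^∞`. -/
def ContainsLinf (𝕜 : Type) [RCLike 𝕜] (E : Type) [NormedAddCommGroup E]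
    [NormedSpace 𝕜 E] : Prop :=
  ∃ G : Submodule 𝕜 E, IsClosed (G : Set E) ∧ Nonempty (G ≃L[𝕜] Linf 𝕜)

section

variable (𝕜 : Type) [RCLike 𝕜]

/-- The unit ball of `ℓ^∞`. -/
abbrev Ball : Type := {y : Linf 𝕜 // ‖y‖ ≤ 1}

/-- The index set of the `ℓ^1` part. -/
abbrev Idx : Type := Ball 𝕜 × ℕ

/-- The `ℓ^1` part. -/
abbrev Zsp : Type := lp (fun _ : Idx 𝕜 => 𝕜) 1

/-- The space `ℓ^∞ ⊕ ℓ^1(Γ)`. -/
abbrev Esp : Type := Linf 𝕜 × Zsp 𝕜

variable {𝕜}

noncomputable instance : DecidableEq (Idx 𝕜) := Classical.decEq _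

/-- The tail of a sequence. -/
noncomputable def tail (y : Linf 𝕜) (m : ℕ) : Linf 𝕜 :=
  y - ∑ n ∈ Finset.range m, lp.single ∞ n (y n)

lemma tail_apply (y : Linf 𝕜) (m k : ℕ) : (tail y m) k = if k < m then 0 else y k := by
  unfold tail
  rw [lp.coeFn_sub, Pi.sub_apply, lp.coeFn_sum, Finset.sum_apply]
  simp only [lp.single_apply, Pi.single_apply]
  rw [Finset.sum_ite_eq]
  simp only [Finset.mem_range]
  split_ifs <;> simp

/-- The coefficients of the correcting functional. -/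
noncomputable def coef (n : ℕ) (i : Idx 𝕜) : 𝕜 := (2 : 𝕜) ^ i.2 * (tail i.1.1 i.2) n

lemma coef_bound (n : ℕ) (i : Idx 𝕜) : ‖coef n i‖ ≤ 2 ^ n := by
  unfold coef
  rw [tail_apply]
  split_ifs with h
  · simp
  · rw [norm_mul, norm_pow]
    have h1 : ‖(i.1.1 : Linf 𝕜) n‖ ≤ 1 :=
      le_trans (lp.norm_apply_le_norm (by simp) _ _) i.1.2
    have h2 : ‖(2 : 𝕜)‖ = 2 := by simp
    rw [h2]
    have h3 : (2 : ℝ) ^ i.2 ≤ 2 ^ n := pow_le_pow_right₀ (by norm_num) (by omega)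
    calc (2 : ℝ) ^ i.2 * ‖(i.1.1 : Linf 𝕜) n‖ ≤ 2 ^ i.2 * 1 := by gcongr
      _ ≤ 2 ^ n := by linarith

lemma summable_norm (z : Zsp 𝕜) : Summable fun i => ‖z i‖ := by
  have := (lp.memℓp z).summable (by simp)
  simpa using this

lemma norm_eq (z : Zsp 𝕜) : ‖z‖ = ∑' i, ‖z i‖ := by
  have := lp.norm_eq_tsum_rpow (p := 1) (by simp) z
  simpa using this

lemma summable_mul (n : ℕ) (z : Zsp 𝕜) : Summable fun i => ‖z i * coef n i‖ := by
  refine Summable.of_nonneg_of_le (fun _ => norm_nonneg _) (fun i => ?_)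
    ((summable_norm z).mul_right (2 ^ n))
  rw [norm_mul]
  exact mul_le_mul_of_nonneg_left (coef_bound n i) (norm_nonneg _)

/-- The correcting functional. -/
noncomputable def K (n : ℕ) : Zsp 𝕜 →L[𝕜] 𝕜 :=
  LinearMap.mkContinuous
    { toFun := fun z => ∑' i, z i * coef n i
      map_add' := by
        intro z w
        rw [← Summable.tsum_add (summable_mul n z).of_norm (summable_mul n w).of_norm]
        refine tsum_congr fun i => ?_
        rw [lp.coeFn_add, Pi.add_apply, add_mul]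
      map_smul' := by
        intro c z
        rw [RingHom.id_apply, smul_eq_mul, ← tsum_mul_left]
        refine tsum_congr fun i => ?_
        rw [lp.coeFn_smul, Pi.smul_apply, smul_eq_mul, mul_assoc] }
    (2 ^ n)
    (by
      intro z
      show ‖∑' i, z i * coef n i‖ ≤ _
      refine (norm_tsum_le_tsum_norm (summable_mul n z)).trans ?_
      rw [norm_eq, ← tsum_mul_left]
      refine (summable_mul n z).tsum_le_tsum (fun i => ?_) ((summable_norm z).mul_left _)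
      rw [norm_mul, mul_comm]
      exact mul_le_mul_of_nonneg_right (coef_bound n i) (norm_nonneg _))

lemma K_single (n : ℕ) (i : Idx 𝕜) (a : 𝕜) : K n (lp.single 1 i a) = a * coef n i := by
  show ∑' j, (lp.single 1 i a : Zsp 𝕜) j * coef n j = _
  rw [tsum_eq_single i]
  · rw [lp.single_apply_self]
  · intro j hj
    rw [lp.single_apply_ne _ _ _ hj, zero_mul]

/-- The vectors of the M-basis. -/
noncomputable def x : Idx 𝕜 ⊕ ℕ → Esp 𝕜
  | Sum.inl i => (tail i.1.1 i.2, lp.single 1 i ((2 : 𝕜) ^ i.2)⁻¹)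
  | Sum.inr n => (lp.single ∞ n 1, 0)

/-- The functionals of the M-basis. -/
noncomputable def f : Idx 𝕜 ⊕ ℕ → (Esp 𝕜 →L[𝕜] 𝕜)
  | Sum.inl i => ((2 : 𝕜) ^ i.2) •
      ((lp.evalCLM (𝕜 := 𝕜) (E := fun _ : Idx 𝕜 => 𝕜) (p := 1) i).comp
        (ContinuousLinearMap.snd 𝕜 (Linf 𝕜) (Zsp 𝕜)))
  | Sum.inr n => (lp.evalCLM (𝕜 := 𝕜) (E := fun _ : ℕ => 𝕜) (p := ∞) n).comp
        (ContinuousLinearMap.fst 𝕜 (Linf 𝕜) (Zsp 𝕜)) -
      (K n).comp (ContinuousLinearMap.snd 𝕜 (Linf 𝕜) (Zsp 𝕜))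

lemma f_inl (i : Idx 𝕜) (v : Esp 𝕜) : f (Sum.inl i) v = (2 : 𝕜) ^ i.2 * v.2 i := rfl

lemma f_inr (n : ℕ) (v : Esp 𝕜) : f (Sum.inr n) v = v.1 n - K n v.2 := rfl

lemma two_pow_ne (m : ℕ) : (2 : 𝕜) ^ m ≠ 0 := pow_ne_zero _ (by norm_num)

lemma bio_self (i : Idx 𝕜 ⊕ ℕ) : f i (x i) = 1 := by
  rcases i with i | n
  · rw [f_inl]
    simp only [x]
    rw [lp.single_apply_self, mul_inv_cancel₀ (two_pow_ne _)]
  · rw [f_inr]
    simp only [x]
    rw [lp.single_apply_self, map_zero, sub_zero]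

lemma bio_ne (i j : Idx 𝕜 ⊕ ℕ) (h : i ≠ j) : f j (x i) = 0 := by
  rcases i with i | n <;> rcases j with j | k
  · have h' : j ≠ i := fun e => h (by rw [e])
    rw [f_inl]
    simp only [x]
    rw [lp.single_apply_ne _ _ _ h', mul_zero]
  · rw [f_inr]
    simp only [x]
    rw [K_single, coef, ← mul_assoc, inv_mul_cancel₀ (two_pow_ne _), one_mul, sub_self]
  · rw [f_inl]
    simp [x]
  · have h' : k ≠ n := fun e => h (by rw [e])
    rw [f_inr]
    simp only [x]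
    rw [lp.single_apply_ne _ _ _ h', map_zero, sub_zero]

lemma total (v : Esp 𝕜) (hv : ∀ i, f i v = 0) : v = 0 := by
  have h2 : v.2 = 0 := by
    apply lp.ext
    funext i
    have := hv (Sum.inl i)
    rw [f_inl] at this
    rcases mul_eq_zero.mp this with h | h
    · exact absurd h (two_pow_ne _)
    · rw [h]; rfl
  have h1 : v.1 = 0 := by
    apply lp.ext
    funext n
    have := hv (Sum.inr n)
    rw [f_inr, h2, map_zero, sub_zero] at this
    rw [this]; rfl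
  exact Prod.ext h1 h2

/-- The closed span of the vectors. -/
noncomputable def M (𝕜 : Type) [RCLike 𝕜] : Submodule 𝕜 (Esp 𝕜) :=
  (Submodule.span 𝕜 (Set.range (x : Idx 𝕜 ⊕ ℕ → Esp 𝕜))).topologicalClosure

lemma x_mem (i : Idx 𝕜 ⊕ ℕ) : x i ∈ M 𝕜 :=
  Submodule.le_topologicalClosure _ (Submodule.subset_span ⟨i, rfl⟩)

lemma M_closed : IsClosed (M 𝕜 : Set (Esp 𝕜)) :=
  Submodule.isClosed_topologicalClosure _

lemma single_mem (n : ℕ) (a : 𝕜) : ((lp.single ∞ n a, 0) : Esp 𝕜) ∈ M 𝕜 := by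
  have h := (M 𝕜).smul_mem a (x_mem (Sum.inr n))
  have e : a • x (Sum.inr n) = ((lp.single ∞ n a, 0) : Esp 𝕜) := by
    simp only [x]
    rw [Prod.smul_mk, smul_zero, ← lp.single_smul]
    simp
  rwa [e] at h

lemma psum_mem (y : Linf 𝕜) (m : ℕ) :
    ((∑ n ∈ Finset.range m, lp.single ∞ n (y n), 0) : Esp 𝕜) ∈ M 𝕜 := by
  have h := (M 𝕜).sum_mem (t := Finset.range m)
    (f := fun n => ((lp.single ∞ n (y n), 0) : Esp 𝕜)) (fun n _ => single_mem n (y n))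
  have e : ∑ n ∈ Finset.range m, ((lp.single ∞ n (y n), 0) : Esp 𝕜) =
      ((∑ n ∈ Finset.range m, lp.single ∞ n (y n), 0) : Esp 𝕜) := by
    refine Prod.ext ?_ ?_
    · rw [Prod.fst_sum]
    · rw [Prod.snd_sum]; simp
  rwa [e] at h

lemma approx_mem (y : Ball 𝕜) (m : ℕ) :
    ((y.1, lp.single 1 (y, m) ((2 : 𝕜) ^ m)⁻¹) : Esp 𝕜) ∈ M 𝕜 := by
  have h := (M 𝕜).add_mem (x_mem (Sum.inl (y, m))) (psum_mem y.1 m)
  have e : x (Sum.inl (y, m)) + ((∑ n ∈ Finset.range m, lp.single ∞ n (y.1 n), 0) : Esp 𝕜) =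
      ((y.1, lp.single 1 (y, m) ((2 : 𝕜) ^ m)⁻¹) : Esp 𝕜) := by
    refine Prod.ext ?_ ?_
    · simp [x, tail]
    · simp [x]
  rwa [e] at h

lemma ball_mem (y : Ball 𝕜) : ((y.1, 0) : Esp 𝕜) ∈ M 𝕜 := by
  have ht : Tendsto (fun m : ℕ => ((y.1, lp.single 1 (y, m) ((2 : 𝕜) ^ m)⁻¹) : Esp 𝕜)) atTop
      (𝓝 ((y.1, 0) : Esp 𝕜)) := by
    refine Tendsto.prodMk_nhds tendsto_const_nhds ?_
    rw [tendsto_zero_iff_norm_tendsto_zero]
    have e : ∀ m : ℕ, ‖(lp.single 1 (y, m) ((2 : 𝕜) ^ m)⁻¹ : Zsp 𝕜)‖ = (1 / 2 : ℝ) ^ m := by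
      intro m
      rw [lp.norm_single (by norm_num)]
      simp
    simp only [e]
    exact tendsto_pow_atTop_nhds_zero_of_lt_one (by norm_num) (by norm_num)
  exact M_closed.mem_of_tendsto ht (Eventually.of_forall fun m => approx_mem y m)

lemma fst_mem (y : Linf 𝕜) : ((y, 0) : Esp 𝕜) ∈ M 𝕜 := by
  by_cases h0 : y = 0
  · rw [h0]; exact (M 𝕜).zero_mem
  · have hn : ‖y‖ ≠ 0 := norm_ne_zero_iff.mpr h0
    have hb : ‖((‖y‖ : 𝕜)⁻¹) • y‖ ≤ 1 := by
      rw [norm_smul]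
      simp [hn]
    have h := (M 𝕜).smul_mem (‖y‖ : 𝕜) (ball_mem ⟨((‖y‖ : 𝕜)⁻¹) • y, hb⟩)
    have e : (‖y‖ : 𝕜) • (((‖y‖ : 𝕜)⁻¹ • y, 0) : Esp 𝕜) = ((y, 0) : Esp 𝕜) := by
      have hn' : (‖y‖ : 𝕜) ≠ 0 := by exact_mod_cast hn
      rw [Prod.smul_mk, smul_smul, mul_inv_cancel₀ hn', one_smul, smul_zero]
    rwa [e] at h

lemma e_mem (i : Idx 𝕜) (a : 𝕜) : ((0, lp.single 1 i a) : Esp 𝕜) ∈ M 𝕜 := by
  have h := (M 𝕜).smul_mem (a * (2 : 𝕜) ^ i.2)
    ((M 𝕜).sub_mem (x_mem (Sum.inl i)) (fst_mem (tail i.1.1 i.2)))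
  have e : (a * (2 : 𝕜) ^ i.2) • (x (Sum.inl i) - ((tail i.1.1 i.2, 0) : Esp 𝕜)) =
      ((0, lp.single 1 i a) : Esp 𝕜) := by
    have hne := two_pow_ne (𝕜 := 𝕜) i.2
    refine Prod.ext ?_ ?_
    · simp [x]
    · simp only [x, Prod.smul_snd, Prod.snd_sub, sub_zero]
      rw [← lp.single_smul, smul_eq_mul, mul_assoc, mul_inv_cancel₀ hne, mul_one]
  rwa [e] at h

lemma snd_mem (z : Zsp 𝕜) : ((0, z) : Esp 𝕜) ∈ M 𝕜 := by
  have hs := lp.hasSum_single (p := 1) (by simp) z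
  have ht : Tendsto (fun s : Finset (Idx 𝕜) => ((0, ∑ i ∈ s, lp.single 1 i (z i)) : Esp 𝕜)) atTop
      (𝓝 ((0, z) : Esp 𝕜)) :=
    Tendsto.prodMk_nhds tendsto_const_nhds hs
  refine M_closed.mem_of_tendsto ht (Eventually.of_forall fun s => ?_)
  have h := (M 𝕜).sum_mem (t := s)
    (f := fun i => ((0, lp.single 1 i (z i)) : Esp 𝕜)) (fun i _ => e_mem i (z i))
  have e : ∑ i ∈ s, ((0, lp.single 1 i (z i)) : Esp 𝕜) =
      ((0, ∑ i ∈ s, lp.single 1 i (z i)) : Esp 𝕜) := by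
    refine Prod.ext ?_ ?_
    · rw [Prod.fst_sum]; simp
    · rw [Prod.snd_sum]
  rwa [e] at h

lemma all_mem (v : Esp 𝕜) : v ∈ M 𝕜 := by
  have h := (M 𝕜).add_mem (fst_mem v.1) (snd_mem v.2)
  have e : ((v.1, 0) : Esp 𝕜) + ((0, v.2) : Esp 𝕜) = v := by
    refine Prod.ext ?_ ?_ <;> simp
  rwa [e] at h

lemma hasMBasis : HasExtendedMBasis 𝕜 (Esp 𝕜) := by
  refine ⟨Idx 𝕜 ⊕ ℕ, x, f, bio_self, bio_ne, ?_, total⟩
  rw [Set.eq_univ_iff_forall]
  intro v
  exact all_mem v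

lemma containsLinf : ContainsLinf 𝕜 (Esp 𝕜) := by
  refine ⟨(ContinuousLinearMap.snd 𝕜 (Linf 𝕜) (Zsp 𝕜)).ker,
    ContinuousLinearMap.isClosed_ker _, ⟨?_⟩⟩
  refine ContinuousLinearEquiv.equivOfInverse
    ((ContinuousLinearMap.fst 𝕜 (Linf 𝕜) (Zsp 𝕜)).comp (Submodule.subtypeL _))
    ((ContinuousLinearMap.inl 𝕜 (Linf 𝕜) (Zsp 𝕜)).codRestrict _ ?_) ?_ ?_
  · intro y; simp
  · rintro ⟨⟨y, z⟩, hz⟩
    have hz' : z = 0 := by simpa using hz
    subst hz'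
    rfl
  · intro y
    rfl

end

/-- Over the real and over the complex field there is a Banach space with an extended M-basis
that contains a closed subspace isomorphic to `ℓ^∞`. -/
theorem result (𝕜 : Type) [RCLike 𝕜] :
    ∃ (E : Type) (_ : NormedAddCommGroup E) (_ : NormedSpace 𝕜 E),
      CompleteSpace E ∧ HasExtendedMBasis 𝕜 E ∧ ContainsLinf 𝕜 E :=
  ⟨Esp 𝕜, inferInstance, inferInstance, inferInstance, hasMBasis, containsLinf⟩

end Pool.Agent.Results.MP_810de6_an.LinftyMBasis
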